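import Pool.Agent.Helper83.TW.Goals1

/-! `GEE2` from `GD12` and `GEE1`. -/

set_option autoImplicit false

namespace Pool.Agent.Helper16.TW

open Complex Set Pool.Agent.Helper83.TW

theorem hasD1 {f : ℂ × ℂ → ℂ} {U : Set (ℂ × ℂ)} (hU : IsOpen U) (hf : DifferentiableOn ℂ f U)
    {p : ℂ × ℂ} (hp : p ∈ U) : HasDerivAt (fun z => f (z, p.2)) (D1 f p) p.1 := by
  have h1 : DifferentiableAt ℂ f p := (hf p hp).differentiableAt (hU.mem_nhds hp)
  have h2 : DifferentiableAt ℂ (fun z : ℂ => (z, p.2)) p.1 := by fun_prop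
  have h3 : DifferentiableAt ℂ (fun z : ℂ => f (z, p.2)) p.1 :=
    DifferentiableAt.comp (g := f) p.1 h1 h2
  exact h3.hasDerivAt

theorem hasD2 {f : ℂ × ℂ → ℂ} {U : Set (ℂ × ℂ)} (hU : IsOpen U) (hf : DifferentiableOn ℂ f U)
    {p : ℂ × ℂ} (hp : p ∈ U) : HasDerivAt (fun z => f (p.1, z)) (D2 f p) p.2 := by
  have h1 : DifferentiableAt ℂ f p := (hf p hp).differentiableAt (hU.mem_nhds hp)
  have h2 : DifferentiableAt ℂ (fun z : ℂ => (p.1, z)) p.2 := by fun_prop
  have h3 : DifferentiableAt ℂ (fun z : ℂ => f (p.1, z)) p.2 :=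
    DifferentiableAt.comp (g := f) p.2 h1 h2
  exact h3.hasDerivAt

theorem hasShift {f : ℂ × ℂ → ℂ} {U : Set (ℂ × ℂ)} (hU : IsOpen U) (hf : DifferentiableOn ℂ f U)
    {α z w : ℂ} (hp : (α + w + z, w) ∈ U) :
    HasDerivAt (fun z' => f (α + w + z', w)) (D1 f (α + w + z, w)) z := by
  have h1 := hasD1 hU hf hp
  have h2 : HasDerivAt (fun z' : ℂ => α + w + z') 1 z := (hasDerivAt_id z).const_add _
  have h3 := HasDerivAt.comp z (h₂ := fun z => f (z, w)) (h := fun z' : ℂ => α + w + z') h1 h2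
  rw [mul_one] at h3
  exact h3

theorem memDom {ρ r s δ Λ η : ℝ} {M : ℕ} (P : Prm ρ r s δ Λ η M) {α z w : ℂ}
    (hα : |α.im| < r - 2*δ) (hz : ‖z‖ < δ) (hw : w ∈ Om s) : (α + w + z, w) ∈ Dom r s := by
  refine ⟨?_, hw⟩
  have h1 := hw.2.2
  have h2 : |z.im| ≤ ‖z‖ := abs_im_le_norm z
  have h3 : |(α + w + z).im| ≤ |α.im| + |w.im| + |z.im| := by
    have e : (α + w + z).im = α.im + w.im + z.im := by simp
    rw [e]
    exact (abs_add_le _ _).trans (by linarith [abs_add_le α.im w.im])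
  have h4 := P.hs1
  show |(α + w + z).im| < r
  linarith

theorem memDom0 {ρ r s δ Λ η : ℝ} {M : ℕ} (P : Prm ρ r s δ Λ η M) {α w : ℂ}
    (hα : |α.im| < r - 2*δ) (hw : w ∈ Om s) : (α, w) ∈ Dom r s := by
  refine ⟨?_, hw⟩
  have h4 := P.hδ0
  show |α.im| < r
  linarith

theorem gee2 (hD : GD12) (hE : GEE1) : GEE2 := by
  intro ρ r s δ Λ η M P g hg S c hS hc
  have hc1 : c ≤ 1/256 := by
    have := P.hρ1
    linarith
  have hc0 := hS.c0
  obtain ⟨hE1, -, -, -⟩ := hE ρ r s δ Λ η M P g hg S c hS hc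
  have hDu := hD S.u (Dom r s) (isOpen_Dom r s) hS.hu.diff
  have hDv := hD S.v (Dom r s) (isOpen_Dom r s) hS.hv.diff
  have hDg := hD g (DG ρ) (isOpen_DG ρ) hg.hol.diff
  -- the derivative of `z ↦ EEz - z`
  have key : ∀ α z w : ℂ, |α.im| < r - 2*δ → ‖z‖ < δ → w ∈ Om s →
      ∃ X : ℂ, HasDerivAt (fun z' => EEz g S α z' w - z') X z ∧ ‖X‖ ≤ 1/16 := by
    intro α z w hα hz hw
    have hβ := memDom P hα hz hw
    have hmem := (hE1 α z w hα hz hw).1
    have hu1 := hasShift (isOpen_Dom r s) hS.hu.diff hβ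
    have hu11 := hasShift (isOpen_Dom r s) hDu.1 hβ
    have hv11 := hasShift (isOpen_Dom r s) hDv.1 hβ
    have hde : HasDerivAt (fun z' => de S α z' w) (1 + D1 S.u (α + w + z, w)) z := by
      have h := (((hasDerivAt_id z).const_add w).add hu1).sub_const (S.u (α, w))
      exact h
    have hg2 : HasDerivAt (fun y => D2 g (hh S (α, w), y))
        (D2 (D2 g) (hh S (α, w), de S α z w)) (de S α z w) :=
      hasD2 (isOpen_DG ρ) hDg.2.1 (DGh_subset P.hρ0 hmem)
    have hg3 : HasDerivAt (fun z' => D2 g (hh S (α, w), de S α z' w))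
        (D2 (D2 g) (hh S (α, w), de S α z w) * (1 + D1 S.u (α + w + z, w))) z :=
      HasDerivAt.comp z (h₂ := fun y => D2 g (hh S (α, w), y)) (h := fun z' => de S α z' w)
        hg2 hde
    have hA := ((hu11.const_add 1).mul (hde.add hg3))
    have hB := ((hA.sub_const (S.a w)).sub hv11).sub (hasDerivAt_id z)
    refine ⟨D1 (D1 S.u) (α + w + z, w) * (de S α z w + D2 g (hh S (α, w), de S α z w))
      + (1 + D1 S.u (α + w + z, w)) * (1 + D1 S.u (α + w + z, w)
        + D2 (D2 g) (hh S (α, w), de S α z w) * (1 + D1 S.u (α + w + z, w)))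
      - D1 (D1 S.v) (α + w + z, w) - 1, hB, ?_⟩
    clear hA hB hde hg3 hg2 hu11 hv11 hu1
    have b1 := hS.bu1 _ hβ
    have b11 := hS.bu11 _ hβ
    have bv := hS.bv11 _ hβ
    have bg2 := hg.b2 _ hmem
    have bg22 := hg.b22 _ hmem
    have bde : ‖de S α z w‖ ≤ 2.7 := by
      obtain ⟨-, m1, m2, m3⟩ := hmem
      have e := norm_le_abs_re_add_abs_im (de S α z w)
      have m1' : 1/2 < (de S α z w).re := m1
      have m2' : (de S α z w).re < 5/2 := m2
      have m3' : |(de S α z w).im| < ρ/2 := m3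
      have e1 : |(de S α z w).re| ≤ 5/2 := by
        rw [abs_le]; constructor <;> linarith
      have := P.hρ1
      linarith
    generalize D1 (D1 S.u) (α + w + z, w) = u11 at *
    generalize D1 S.u (α + w + z, w) = u1 at *
    generalize D1 (D1 S.v) (α + w + z, w) = v11 at *
    generalize D2 (D2 g) (hh S (α, w), de S α z w) = g22 at *
    generalize D2 g (hh S (α, w), de S α z w) = g2 at *
    generalize de S α z w = d at *
    have hX : u11 * (d + g2) + (1 + u1) * (1 + u1 + g22 * (1 + u1)) - v11 - 1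
        = u11 * (d + g2) + (2 * u1 + u1 * u1 + g22 * ((1 + u1) * (1 + u1))) - v11 := by ring
    have n1 : ‖u11 * (d + g2)‖ ≤ 1/256 * 2.71 := by
      rw [norm_mul]
      have : ‖d + g2‖ ≤ 2.71 := (norm_add_le _ _).trans (by linarith)
      exact mul_le_mul (b11.trans hc1) this (norm_nonneg _) (by norm_num)
    have n2 : ‖1 + u1‖ ≤ 257/256 := by
      have := norm_add_le (1:ℂ) u1
      rw [norm_one] at this
      linarith
    have n3 : ‖g22 * ((1 + u1) * (1 + u1))‖ ≤ 1/1000 * (257/256 * (257/256)) := by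
      rw [norm_mul, norm_mul]
      exact mul_le_mul bg22 (mul_le_mul n2 n2 (norm_nonneg _) (by norm_num))
        (by positivity) (by norm_num)
    have n4 : ‖u1 * u1‖ ≤ 1/256 * (1/256) := by
      rw [norm_mul]
      exact mul_le_mul (b1.trans hc1) (b1.trans hc1) (norm_nonneg _) (by norm_num)
    have n5 : ‖2 * u1‖ ≤ 2 * (1/256) := by
      rw [norm_mul]
      have : ‖(2:ℂ)‖ = 2 := by norm_num
      rw [this]
      linarith
    have n6 : ‖v11‖ ≤ 1/256 := bv.trans hc1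
    have e1 := norm_sub_le (u11 * (d + g2) + (2 * u1 + u1 * u1 + g22 * ((1 + u1) * (1 + u1)))) v11
    have e2 := norm_add_le (u11 * (d + g2)) (2 * u1 + u1 * u1 + g22 * ((1 + u1) * (1 + u1)))
    have e3 := norm_add_le (2 * u1 + u1 * u1) (g22 * ((1 + u1) * (1 + u1)))
    have e4 := norm_add_le (2 * u1) (u1 * u1)
    rw [hX]
    norm_num at *
    linarith
  have first : ∀ α z z' w : ℂ, |α.im| < r - 2*δ → ‖z‖ < δ → ‖z'‖ < δ → w ∈ Om s →
      ‖(EEz g S α z w - z) - (EEz g S α z' w - z')‖ ≤ ‖z - z'‖ / 16 := by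
    intro α z z' w hα hz hz' hw
    have hc' : Convex ℝ (Metric.ball (0:ℂ) δ) := convex_ball 0 δ
    have hk : ∀ x ∈ Metric.ball (0:ℂ) δ, ∃ X : ℂ,
        HasDerivAt (fun z' => EEz g S α z' w - z') X x ∧ ‖X‖ ≤ 1/16 := by
      intro x hx
      exact key α x w hα (by simpa using hx) hw
    have hk' : ∀ x ∈ Metric.ball (0:ℂ) δ,
        HasDerivWithinAt (fun z' => EEz g S α z' w - z')
          (deriv (fun z' => EEz g S α z' w - z') x) (Metric.ball (0:ℂ) δ) x ∧
        ‖deriv (fun z' => EEz g S α z' w - z') x‖ ≤ 1/16 := by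
      intro x hx
      obtain ⟨X, hX, hb⟩ := hk x hx
      rw [hX.deriv]
      exact ⟨hX.hasDerivWithinAt, hb⟩
    have := hc'.norm_image_sub_le_of_norm_hasDerivWithin_le (fun x hx => (hk' x hx).1)
      (fun x hx => (hk' x hx).2) (x := z') (y := z) (by simpa using hz') (by simpa using hz)
    calc _ ≤ 1/16 * ‖z - z'‖ := this
      _ = ‖z - z'‖ / 16 := by ring
  refine ⟨first, ?_⟩
  intro α z w hα hz hw
  have hz0 : ‖(0:ℂ)‖ < δ := by simpa using P.hδ0
  have hc' : Convex ℝ (Metric.closedBall (0:ℂ) ‖z‖) := convex_closedBall 0 _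
  have hk' : ∀ x ∈ Metric.closedBall (0:ℂ) ‖z‖,
      HasDerivWithinAt (fun z' => EE g S α z' w - EEz g S α 0 w * z')
        (EEz g S α x w - EEz g S α 0 w) (Metric.closedBall (0:ℂ) ‖z‖) x ∧
      ‖EEz g S α x w - EEz g S α 0 w‖ ≤ 2 * ‖z‖ := by
    intro x hx
    have hx1 : ‖x‖ ≤ ‖z‖ := by simpa using hx
    have hx2 : ‖x‖ < δ := lt_of_le_of_lt hx1 hz
    constructor
    · have h1 := (hE1 α x w hα hx2 hw).2.1
      have h2 : HasDerivAt (fun z' : ℂ => EEz g S α 0 w * z') (EEz g S α 0 w) x := by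
        simpa using (hasDerivAt_id x).const_mul (EEz g S α 0 w)
      exact (h1.sub h2).hasDerivWithinAt
    · have h1 := first α x 0 w hα hx2 hz0 hw
      rw [sub_zero, sub_zero] at h1
      have e : EEz g S α x w - EEz g S α 0 w = (EEz g S α x w - x - EEz g S α 0 w) + x := by ring
      rw [e]
      refine (norm_add_le _ _).trans ?_
      have := norm_nonneg x
      linarith
  have := hc'.norm_image_sub_le_of_norm_hasDerivWithin_le (fun x hx => (hk' x hx).1)
      (fun x hx => (hk' x hx).2) (x := 0) (y := z) (by simp) (by simp)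
  have e : EE g S α z w - EE g S α 0 w - EEz g S α 0 w * z
      = EE g S α z w - EEz g S α 0 w * z - (EE g S α 0 w - EEz g S α 0 w * 0) := by ring
  rw [e]
  calc _ ≤ 2 * ‖z‖ * ‖z - 0‖ := this
    _ = 2 * ‖z‖ ^ 2 := by rw [sub_zero]; ring

end Pool.Agent.Helper16.TW
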