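import Pool.Agent.Helper16.TW.EE2

/-! `GF` from `GD12` and `GEE1`. -/

set_option autoImplicit false

namespace Pool.Agent.Helper16.TW

open Complex Set Pool.Agent.Helper83.TW

theorem chain2 {f : ℂ × ℂ → ℂ} {A B : ℂ} {x y : ℂ → ℂ} {x' y' t : ℂ}
    (hf : HasFDerivAt f (A • ContinuousLinearMap.fst ℂ ℂ ℂ + B • ContinuousLinearMap.snd ℂ ℂ ℂ)
      (x t, y t)) (hx : HasDerivAt x x' t) (hy : HasDerivAt y y' t) :
    HasDerivAt (fun t => f (x t, y t)) (A * x' + B * y') t := by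
  have h1 : HasDerivAt (fun t => (x t, y t)) (x', y') t := hx.prodMk hy
  have h2 := HasFDerivAt.comp_hasDerivAt (l := f) (f := fun t => (x t, y t)) t hf h1
  have e : (A • ContinuousLinearMap.fst ℂ ℂ ℂ + B • ContinuousLinearMap.snd ℂ ℂ ℂ) (x', y')
      = A * x' + B * y' := by simp
  rw [e] at h2
  exact h2

theorem algGF (h h' W W' P g1 u2 u2' v2 v2' E1 E2 : ℂ) (hh : ‖h - 1‖ ≤ 1/256)
    (hh' : ‖h' - 1‖ ≤ 1/256) (hu : ‖u2‖ ≤ 1/256) (hu' : ‖u2'‖ ≤ 1/256)
    (i : h * v2 = W * u2) (i' : h' * v2' = W' * u2')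
    (e1 : E1 = P * (h' - h) + g1 * h - (W' - W))
    (e2 : E2 = P * (h' + u2' - u2) + g1 * u2 - W' - v2' + v2) :
    ‖h' * P - W'‖ ≤ 4 * (‖E1‖ + ‖E2‖) ∧ ‖P - W' / h'‖ ≤ 8 * (‖E1‖ + ‖E2‖) ∧
      ‖P - g1 - W / h‖ ≤ 8 * (‖E1‖ + ‖E2‖) := by
  have nh : 255/256 ≤ ‖h‖ := by
    have := norm_sub_norm_le (1:ℂ) (1 - h)
    rw [norm_one, norm_sub_rev] at this
    have e : (1:ℂ) - (1 - h) = h := by ring
    rw [e] at this
    linarith
  have nh' : 255/256 ≤ ‖h'‖ := by
    have := norm_sub_norm_le (1:ℂ) (1 - h')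
    rw [norm_one, norm_sub_rev] at this
    have e : (1:ℂ) - (1 - h') = h' := by ring
    rw [e] at this
    linarith
  have h0 : h ≠ 0 := by
    rintro rfl
    rw [norm_zero] at nh
    norm_num at nh
  have h0' : h' ≠ 0 := by
    rintro rfl
    rw [norm_zero] at nh'
    norm_num at nh'
  have nf : ‖u2 / h‖ ≤ 1/255 := by
    rw [norm_div, div_le_iff₀ (by linarith)]
    linarith
  have nf' : ‖u2' / h'‖ ≤ 1/255 := by
    rw [norm_div, div_le_iff₀ (by linarith)]
    linarith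
  have hv : v2 = W * (u2 / h) := by
    rw [← mul_div_assoc, eq_div_iff h0, mul_comm]
    exact i
  have hv' : v2' = W' * (u2' / h') := by
    rw [← mul_div_assoc, eq_div_iff h0', mul_comm]
    exact i'
  have hu2 : u2 = (u2 / h) * h := by rw [div_mul_cancel₀ _ h0]
  have hu2' : u2' = (u2' / h') * h' := by rw [div_mul_cancel₀ _ h0']
  set f := u2 / h with hf
  set f' := u2' / h' with hf'
  have key : (h' * P - W') * (1 + f' - f) = E2 - f * E1 := by
    rw [e1, e2, hv, hv', hu2, hu2']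
    ring
  have n1 : 253/255 ≤ ‖1 + f' - f‖ := by
    have := norm_sub_norm_le (1:ℂ) (f - f')
    rw [norm_one] at this
    have e : (1:ℂ) - (f - f') = 1 + f' - f := by ring
    rw [e] at this
    have := norm_sub_le f f'
    linarith
  have n2 : ‖h' * P - W'‖ * (253/255) ≤ ‖E2‖ + ‖E1‖ := by
    calc ‖h' * P - W'‖ * (253/255) ≤ ‖h' * P - W'‖ * ‖1 + f' - f‖ :=
          mul_le_mul_of_nonneg_left n1 (norm_nonneg _)
      _ = ‖E2 - f * E1‖ := by rw [← norm_mul, key]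
      _ ≤ ‖E2‖ + ‖f * E1‖ := norm_sub_le _ _
      _ ≤ ‖E2‖ + ‖E1‖ := by
          rw [norm_mul]
          have : ‖f‖ * ‖E1‖ ≤ 1 * ‖E1‖ :=
            mul_le_mul_of_nonneg_right (nf.trans (by norm_num)) (norm_nonneg _)
          linarith
  have p1 := norm_nonneg E1
  have p2 := norm_nonneg E2
  have p3 := norm_nonneg (h' * P - W')
  refine ⟨by linarith, ?_, ?_⟩
  · have e : P - W' / h' = (h' * P - W') / h' := by
      field_simp
    rw [e, norm_div, div_le_iff₀ (by linarith)]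
    have : 8 * (‖E1‖ + ‖E2‖) * (255/256) ≤ 8 * (‖E1‖ + ‖E2‖) * ‖h'‖ :=
      mul_le_mul_of_nonneg_left nh' (by positivity)
    linarith
  · have e : P - g1 - W / h = -((E1 - (h' * P - W')) / h) := by
      rw [e1]
      field_simp
      ring
    rw [e, norm_neg, norm_div, div_le_iff₀ (by linarith)]
    have : 8 * (‖E1‖ + ‖E2‖) * (255/256) ≤ 8 * (‖E1‖ + ‖E2‖) * ‖h‖ :=
      mul_le_mul_of_nonneg_left nh (by positivity)
    have := norm_sub_le E1 (h' * P - W')
    linarith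

theorem gf (hD : GD12) (hE : GEE1) : GF := by
  intro ρ r s δ Λ η M P g hg S c hS hc p hp
  have hc1 : c ≤ 1/256 := by
    have := P.hρ1
    linarith
  have hmem := (hE ρ r s δ Λ η M P g hg S c hS hc).2.2.2 p hp
  obtain ⟨θ, w⟩ := p
  have hDu := (hD S.u (Dom r s) (isOpen_Dom r s) hS.hu.diff).2.2.2
  have hDv := (hD S.v (Dom r s) (isOpen_Dom r s) hS.hv.diff).2.2.2
  have hDg := (hD g (DG ρ) (isOpen_DG ρ) hg.hol.diff).2.2.2
  have hw : w ∈ Om s := hp.2
  have hθ : |θ.im| < r - δ := hp.1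
  have m0 : (θ, w) ∈ Dom r s := Dom_mono (by linarith [P.hδ0]) le_rfl hp
  have m1 : (θ + w, w) ∈ Dom r s := by
    refine ⟨?_, hw⟩
    have h1 := hw.2.2
    have h3 : |(θ + w).im| ≤ |θ.im| + |w.im| := by
      rw [add_im]; exact abs_add_le _ _
    have h4 := P.hs1
    show |(θ + w).im| < r
    linarith
  have hmem' : (θ + S.u (θ, w), w + S.u (θ + w, w) - S.u (θ, w)) ∈ DG ρ := by
    have := DGh_subset P.hρ0 hmem
    simpa [hh, de] using this
  have du0 := hDu _ m0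
  have du1 := hDu _ m1
  have dv0 := hDv _ m0
  have dv1 := hDv _ m1
  have dg := hDg _ hmem'
  have ida : ∀ x : ℂ, HasDerivAt (fun z : ℂ => z) 1 x := fun x => hasDerivAt_id x
  have hErr : Err g S = fun q : ℂ × ℂ =>
      (q.2 + S.u (q.1 + q.2, q.2) - S.u q) ^ 2 / 2
        + g (q.1 + S.u q, q.2 + S.u (q.1 + q.2, q.2) - S.u q) - S.a q.2 * q.2
        - (S.v (q.1 + q.2, q.2) - S.v q) + S.γ q.2 := by
    funext q
    simp [Err, EE, de, hh]
  -- derivative in `θ`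
  have a1 : HasDerivAt (fun z : ℂ => S.u (z, w)) (D1 S.u (θ, w)) θ := by
    have := chain2 (x := fun z => z) (y := fun _ => w) du0 (ida θ) (hasDerivAt_const θ w)
    simpa using this
  have a2 : HasDerivAt (fun z : ℂ => S.u (z + w, w)) (D1 S.u (θ + w, w)) θ := by
    have := chain2 (x := fun z => z + w) (y := fun _ => w) du1 ((ida θ).add_const w)
      (hasDerivAt_const θ w)
    simpa using this
  have a3 : HasDerivAt (fun z : ℂ => S.v (z, w)) (D1 S.v (θ, w)) θ := by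
    have := chain2 (x := fun z => z) (y := fun _ => w) dv0 (ida θ) (hasDerivAt_const θ w)
    simpa using this
  have a4 : HasDerivAt (fun z : ℂ => S.v (z + w, w)) (D1 S.v (θ + w, w)) θ := by
    have := chain2 (x := fun z => z + w) (y := fun _ => w) dv1 ((ida θ).add_const w)
      (hasDerivAt_const θ w)
    simpa using this
  have a5 : HasDerivAt (fun z : ℂ => z + S.u (z, w)) (1 + D1 S.u (θ, w)) θ := (ida θ).add a1
  have a6 : HasDerivAt (fun z : ℂ => w + S.u (z + w, w) - S.u (z, w))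
      (D1 S.u (θ + w, w) - D1 S.u (θ, w)) θ := (a2.const_add w).sub a1
  have a7 := chain2 (x := fun z : ℂ => z + S.u (z, w))
    (y := fun z : ℂ => w + S.u (z + w, w) - S.u (z, w)) dg a5 a6
  have a8 : HasDerivAt (fun z : ℂ => (w + S.u (z + w, w) - S.u (z, w)) ^ 2 / 2)
      ((w + S.u (θ + w, w) - S.u (θ, w)) * (D1 S.u (θ + w, w) - D1 S.u (θ, w))) θ := by
    have := (a6.pow 2).div_const 2
    refine this.congr_deriv ?_
    simp
    ring
  have b1 : D1 (Err g S) (θ, w) =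
      (w + S.u (θ + w, w) - S.u (θ, w)) * (D1 S.u (θ + w, w) - D1 S.u (θ, w))
      + (D1 g (θ + S.u (θ, w), w + S.u (θ + w, w) - S.u (θ, w)) * (1 + D1 S.u (θ, w))
        + D2 g (θ + S.u (θ, w), w + S.u (θ + w, w) - S.u (θ, w))
          * (D1 S.u (θ + w, w) - D1 S.u (θ, w)))
      - (D1 S.v (θ + w, w) - D1 S.v (θ, w)) := by
    rw [hErr]
    exact ((((a8.add a7).sub_const (S.a w * w)).sub (a4.sub a3)).add_const (S.γ w)).deriv
  -- derivative in `w`
  have ha : HasDerivAt S.a (deriv S.a w) w :=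
    ((hS.ha.diff w hw).differentiableAt ((isOpen_Om s).mem_nhds hw)).hasDerivAt
  have hγ : HasDerivAt S.γ (w * deriv S.a w) w := by
    have := ((hS.hγ.diff w hw).differentiableAt ((isOpen_Om s).mem_nhds hw)).hasDerivAt
    rwa [hS.I3 w hw] at this
  have c1 : HasDerivAt (fun z : ℂ => S.u (θ, z)) (D2 S.u (θ, w)) w := by
    have := chain2 (x := fun _ => θ) (y := fun z => z) du0 (hasDerivAt_const w θ) (ida w)
    simpa using this
  have c2 : HasDerivAt (fun z : ℂ => S.u (θ + z, z)) (D1 S.u (θ + w, w) + D2 S.u (θ + w, w)) w := by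
    have := chain2 (x := fun z => θ + z) (y := fun z => z) du1 ((ida w).const_add θ) (ida w)
    simpa using this
  have c3 : HasDerivAt (fun z : ℂ => S.v (θ, z)) (D2 S.v (θ, w)) w := by
    have := chain2 (x := fun _ => θ) (y := fun z => z) dv0 (hasDerivAt_const w θ) (ida w)
    simpa using this
  have c4 : HasDerivAt (fun z : ℂ => S.v (θ + z, z)) (D1 S.v (θ + w, w) + D2 S.v (θ + w, w)) w := by
    have := chain2 (x := fun z => θ + z) (y := fun z => z) dv1 ((ida w).const_add θ) (ida w)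
    simpa using this
  have c5 : HasDerivAt (fun z : ℂ => θ + S.u (θ, z)) (D2 S.u (θ, w)) w := c1.const_add θ
  have c6 : HasDerivAt (fun z : ℂ => z + S.u (θ + z, z) - S.u (θ, z))
      (1 + (D1 S.u (θ + w, w) + D2 S.u (θ + w, w)) - D2 S.u (θ, w)) w := ((ida w).add c2).sub c1
  have c7 := chain2 (x := fun z : ℂ => θ + S.u (θ, z))
    (y := fun z : ℂ => z + S.u (θ + z, z) - S.u (θ, z)) dg c5 c6
  have c8 : HasDerivAt (fun z : ℂ => (z + S.u (θ + z, z) - S.u (θ, z)) ^ 2 / 2)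
      ((w + S.u (θ + w, w) - S.u (θ, w)) *
        (1 + (D1 S.u (θ + w, w) + D2 S.u (θ + w, w)) - D2 S.u (θ, w))) w := by
    have := (c6.pow 2).div_const 2
    refine this.congr_deriv ?_
    simp
    ring
  have c9 : HasDerivAt (fun z : ℂ => S.a z * z) (deriv S.a w * w + S.a w * 1) w := ha.mul (ida w)
  have b2 : D2 (Err g S) (θ, w) =
      (w + S.u (θ + w, w) - S.u (θ, w)) *
        (1 + (D1 S.u (θ + w, w) + D2 S.u (θ + w, w)) - D2 S.u (θ, w))
      + (D1 g (θ + S.u (θ, w), w + S.u (θ + w, w) - S.u (θ, w)) * D2 S.u (θ, w)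
        + D2 g (θ + S.u (θ, w), w + S.u (θ + w, w) - S.u (θ, w))
          * (1 + (D1 S.u (θ + w, w) + D2 S.u (θ + w, w)) - D2 S.u (θ, w)))
      - (deriv S.a w * w + S.a w * 1)
      - (D1 S.v (θ + w, w) + D2 S.v (θ + w, w) - D2 S.v (θ, w)) + w * deriv S.a w := by
    rw [hErr]
    exact ((((c8.add c7).sub c9).sub (c4.sub c3)).add hγ).deriv
  have i0 := hS.I2 _ m0
  have i1 := hS.I2 _ m1
  have nu1 := hS.bu1 _ m0
  have nu1' := hS.bu1 _ m1
  have nu2 := hS.bu2 _ m0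
  have nu2' := hS.bu2 _ m1
  have hfin := algGF (1 + D1 S.u (θ, w)) (1 + D1 S.u (θ + w, w)) (S.a w + D1 S.v (θ, w))
    (S.a w + D1 S.v (θ + w, w))
    (w + S.u (θ + w, w) - S.u (θ, w)
      + D2 g (θ + S.u (θ, w), w + S.u (θ + w, w) - S.u (θ, w)))
    (D1 g (θ + S.u (θ, w), w + S.u (θ + w, w) - S.u (θ, w)))
    (D2 S.u (θ, w)) (D2 S.u (θ + w, w)) (D2 S.v (θ, w)) (D2 S.v (θ + w, w))
    (D1 (Err g S) (θ, w)) (D2 (Err g S) (θ, w))
    (by simpa using nu1.trans hc1) (by simpa using nu1'.trans hc1) (nu2.trans hc1)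
    (nu2'.trans hc1) i0 i1 (by rw [b1]; ring) (by rw [b2]; ring)
  obtain ⟨f1, f2, f3⟩ := hfin
  have eFF : FF g S (θ, w) = (1 + D1 S.u (θ + w, w)) * (w + S.u (θ + w, w) - S.u (θ, w)
      + D2 g (θ + S.u (θ, w), w + S.u (θ + w, w) - S.u (θ, w))) - (S.a w + D1 S.v (θ + w, w)) := by
    simp [FF, EEz, de, hh]
    ring
  have ede : de S θ 0 w = w + S.u (θ + w, w) - S.u (θ, w) := by simp [de]
  have ehh : hh S (θ, w) = θ + S.u (θ, w) := rfl
  refine ⟨?_, ?_, ?_⟩
  · rw [eFF]; exact f1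
  · simp only [ede, ehh, pp]; exact f2
  · simp only [ede, ehh, pp]; exact f3

end Pool.Agent.Helper16.TW
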